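import Pool.Agent.Helper428.BrownStep

set_option autoImplicit false

open Polynomial

/-!
MP_1e1ce6_co.  Real parts of chromatic roots: the sharp gap below the complete graph, with
quantitative lower bounds and an extremal principle for the modulus.
-/

namespace Pool.Agent.Results.MP_1e1ce6_co.SharpGap

universe u

/-- `p` is the chromatic polynomial of `G`: for every positive integer `q` the value `p(q)` is the
number of proper colourings of the vertices of `G` with at most `q` colours. -/
def IsChromaticPolynomial {V : Type u} (G : SimpleGraph V) (p : ℤ[X]) : Prop :=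
  ∀ q : ℕ, 0 < q → p.eval (q : ℤ) = Nat.card (G.Coloring (Fin q))

/-- `z` is a chromatic root of `G`: a complex zero of the chromatic polynomial of `G`. -/
def IsChromaticRoot {V : Type u} (G : SimpleGraph V) (z : ℂ) : Prop :=
  ∃ p : ℤ[X], IsChromaticPolynomial G p ∧ aeval z p = 0

/-- For an injective numbering `f` of the vertices, the number of neighbours of `v` with a smaller
number. -/
noncomputable def backDegree {V : Type u} (G : SimpleGraph V) (f : V → ℕ) (v : V) : ℕ :=
  Nat.card {w : V // f w < f v ∧ G.Adj v w}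

open Pool.Agent.Helper428.Brown

lemma cnt_univ {V : Type u} [Fintype V] [DecidableEq V] (G : SimpleGraph V) (q : ℕ) :
    cnt G Finset.univ q = Nat.card (G.Coloring (Fin q)) := by
  unfold cnt
  apply Nat.card_congr
  exact
    { toFun := fun f => SimpleGraph.Coloring.mk (fun v => f.1 ⟨v, Finset.mem_univ v⟩)
        (fun {a b} h => f.2 ⟨a, Finset.mem_univ a⟩ ⟨b, Finset.mem_univ b⟩ h)
      invFun := fun c => ⟨fun v => c v.1, fun a b h => c.valid h⟩
      left_inv := fun f => rfl
      right_inv := fun c => rfl }

lemma isChromaticPolynomial_pol {V : Type u} [Fintype V] [DecidableEq V] (G : SimpleGraph V) :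
    IsChromaticPolynomial G (pol G Finset.univ) := by
  intro q _
  rw [pol_eval, cnt_univ]

lemma unique_pol {V : Type u} {G : SimpleGraph V} {p p' : ℤ[X]}
    (h : IsChromaticPolynomial G p) (h' : IsChromaticPolynomial G p') : p = p' :=
  pol_ext fun q hq => (h q hq).trans (h' q hq).symm

lemma isChromaticPolynomial_top {V : Type u} [Fintype V] :
    IsChromaticPolynomial (⊤ : SimpleGraph V) (descPochhammer ℤ (Fintype.card V)) := by
  intro q _
  rw [descPochhammer_eval_eq_descFactorial]
  have e : (⊤ : SimpleGraph V).Coloring (Fin q) ≃ (V ↪ Fin q) :=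
    { toFun := fun c => ⟨fun v => c v, fun a b h => by
        by_contra hab
        exact c.valid (show (⊤ : SimpleGraph V).Adj a b from hab) h⟩
      invFun := fun f => SimpleGraph.Coloring.mk f (fun {a b} h h' => h (f.injective h'))
      left_inv := fun f => rfl
      right_inv := fun c => rfl }
  rw [Nat.card_congr e, Nat.card_eq_fintype_card, Fintype.card_embedding_eq, Fintype.card_fin]

lemma aeval_conj (p : ℤ[X]) (z : ℂ) :
    aeval ((starRingEnd ℂ) z) p = (starRingEnd ℂ) (aeval z p) := by
  have h1 := Polynomial.hom_eval₂ p (algebraMap ℤ ℂ) (starRingEnd ℂ) z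
  have h2 : (starRingEnd ℂ).comp (algebraMap ℤ ℂ) = algebraMap ℤ ℂ := RingHom.ext_int _ _
  rw [h2] at h1
  rw [aeval_def, aeval_def, h1]

lemma norm_conj (p : ℤ[X]) (z : ℂ) : ‖aeval ((starRingEnd ℂ) z) p‖ = ‖aeval z p‖ := by
  rw [aeval_conj, RCLike.norm_conj]

section
variable {V : Type u} [DecidableEq V]

/-- neighbours of `v` in `S` with a smaller number -/
noncomputable def bd (G : SimpleGraph V) (f : V → ℕ) (S : Finset V) (v : V) : ℕ := by
  classical
  exact (S.filter fun w => f w < f v ∧ G.Adj v w).card

lemma bd_lt (G : SimpleGraph V) (f : V → ℕ) (S : Finset V) {v : V} (hv : v ∈ S) :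
    bd G f S v + 1 ≤ S.card := by
  classical
  unfold bd
  have h : (S.filter fun w => f w < f v ∧ G.Adj v w) ⊆ S.erase v := by
    intro w hw
    rw [Finset.mem_filter] at hw
    refine Finset.mem_erase.2 ⟨?_, hw.1⟩
    rintro rfl
    exact lt_irrefl _ hw.2.1
  have h1 := Finset.card_le_card h
  rw [Finset.card_erase_of_mem hv] at h1
  have : 1 ≤ S.card := Finset.card_pos.2 ⟨v, hv⟩
  omega

lemma bd_max (G : SimpleGraph V) (f : V → ℕ) (hf : Function.Injective f) (S : Finset V) {x : V}
    (hx : x ∈ S) (hmax : ∀ y ∈ S, f y ≤ f x) : bd G f S x = (nb G x (S.erase x)).card := by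
  classical
  unfold bd
  congr 1
  ext w
  rw [Finset.mem_filter, mem_nb, Finset.mem_erase]
  constructor
  · rintro ⟨h1, h2, h3⟩
    exact ⟨⟨fun h => by rw [h] at h2; exact lt_irrefl _ h2, h1⟩, h3⟩
  · rintro ⟨⟨h1, h2⟩, h3⟩
    exact ⟨h2, lt_of_le_of_ne (hmax w h2) fun h => h1 (hf h), h3⟩

lemma bd_erase (G : SimpleGraph V) (f : V → ℕ) (S : Finset V) {x y : V}
    (hmax : ∀ y ∈ S, f y ≤ f x) (hy : y ∈ S.erase x) : bd G f S y = bd G f (S.erase x) y := by
  classical
  unfold bd
  congr 1
  ext w
  rw [Finset.mem_filter, Finset.mem_filter, Finset.mem_erase]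
  constructor
  · rintro ⟨h1, h2, h3⟩
    refine ⟨⟨?_, h1⟩, h2, h3⟩
    rintro rfl
    exact absurd h2 (not_lt.2 (hmax y (Finset.mem_of_mem_erase hy)))
  · rintro ⟨⟨_, h2⟩, h3⟩
    exact ⟨h2, h3⟩

/-- the product bound on the open half plane, upper half -/
lemma prod_le (G : SimpleGraph V) (f : V → ℕ) (hf : Function.Injective f) :
    ∀ m : ℕ, ∀ S : Finset V, S.card = m → ∀ z : ℂ, (m : ℝ) - 2 < z.re → 0 ≤ z.im →
      ∏ v ∈ S, (z.re - bd G f S v) ≤ ‖P G S z‖ := by
  intro m
  induction m with
  | zero =>
    intro S hS z _ _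
    rw [Finset.card_eq_zero.1 hS, P_empty]
    simp
  | succ m ih =>
    intro S hS z hz him
    have hne : S.Nonempty := Finset.card_pos.1 (by omega)
    obtain ⟨x, hx, hmax⟩ := Finset.exists_max_image S f hne
    have hcard : (S.erase x).card = m := by rw [Finset.card_erase_of_mem hx]; omega
    have hz' : (m : ℝ) - 1 < z.re := by push_cast at hz; linarith
    have hI := ih (S.erase x) hcard z (by linarith) him
    rw [← Finset.mul_prod_erase S _ hx, bd_max G f hf S hx hmax]
    have hprod : ∏ v ∈ S.erase x, (z.re - bd G f S v) =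
        ∏ v ∈ S.erase x, (z.re - bd G f (S.erase x) v) :=
      Finset.prod_congr rfl fun y hy => by rw [bd_erase G f S hmax hy]
    rw [hprod]
    set Q := ∏ v ∈ S.erase x, (z.re - bd G f (S.erase x) v) with hQ
    have hQ0 : 0 ≤ Q := by
      apply Finset.prod_nonneg
      intro y hy
      have h1 := bd_lt G f (S.erase x) hy
      rw [hcard] at h1
      have h2 : (bd G f (S.erase x) y : ℝ) + 1 ≤ m := by exact_mod_cast h1
      linarith
    -- nonvanishing and the ratio
    have key : P G (S.erase x) z ≠ 0 ∧
        z.re - (nb G x (S.erase x)).card ≤ (rr G (S.erase x) (nb G x (S.erase x)) z).re := by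
      rcases Nat.eq_zero_or_pos m with h0 | h0
      · have hE : S.erase x = ∅ := Finset.card_eq_zero.1 (by omega)
        have hP : P G (S.erase x) z ≠ 0 := by rw [hE, P_empty]; exact one_ne_zero
        refine ⟨hP, ?_⟩
        have hN : nb G x (S.erase x) = ∅ := by
          apply Finset.subset_empty.1
          exact (nb_subset G x (S.erase x)).trans hE.subset
        rw [hN, rr_empty hP]
        simp
      · obtain ⟨k, rfl⟩ : ∃ k, m = k + 1 := ⟨m - 1, by omega⟩
        obtain ⟨hP, hD⟩ := stepD (facts k) G (S.erase x) hcard z (by push_cast at hz'; linarith)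
          him
        refine ⟨hP, ?_⟩
        have := X_lower hP hD (nb_subset G x (S.erase x))
        linarith
    obtain ⟨hP, hr⟩ := key
    have e : P G S z = rr G (S.erase x) (nb G x (S.erase x)) z * P G (S.erase x) z := by
      rw [P_erase G S x hx, rr, div_mul_cancel₀ _ hP]
    rw [e, norm_mul]
    rcases le_or_gt 0 (z.re - (nb G x (S.erase x)).card) with h | h
    · apply mul_le_mul _ hI hQ0 (norm_nonneg _)
      exact hr.trans ((le_abs_self _).trans (Complex.abs_re_le_norm _))
    · refine le_trans (mul_nonpos_of_nonpos_of_nonneg h.le hQ0) ?_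
      positivity

/-- adding a star does not increase the modulus -/
lemma star_le {k : ℕ} (G : SimpleGraph V) (S : Finset V) (hS : S.card = k + 1) (z : ℂ)
    (hz : (k : ℝ) < z.re) (him : 0 ≤ z.im) (a : V) (ha : a ∈ S) (C : Finset V) (hC : C ⊆ S)
    (haC : a ∉ C) : ‖P (G ⊔ star a C) S z‖ ≤ ‖P G S z‖ := by
  obtain ⟨hP, hD⟩ := stepD (facts k) G S hS z hz him
  have h1 := disc_of_inv (hD a ha C hC haC)
  have h2 := (disc_re h1.2).2
  have h3 : Complex.normSq (pp G S a C z) ≤ 1 := h1.2.trans h2
  have h4 : ‖pp G S a C z‖ ≤ 1 := by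
    rw [Complex.normSq_eq_norm_sq] at h3
    nlinarith [norm_nonneg (pp G S a C z)]
  have e : P (G ⊔ star a C) S z = pp G S a C z * P G S z := by
    rw [pp, div_mul_cancel₀ _ hP]
  rw [e, norm_mul]
  calc _ ≤ 1 * ‖P G S z‖ := mul_le_mul_of_nonneg_right h4 (norm_nonneg _)
    _ = _ := one_mul _

/-- the graphs between `G` and `G'` -/
def mid (G G' : SimpleGraph V) (T : Finset V) : SimpleGraph V :=
  G ⊔ SimpleGraph.fromRel fun u v => G'.Adj u v ∧ u ∈ T

lemma mid_empty (G G' : SimpleGraph V) : mid G G' ∅ = G := by
  ext u v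
  simp [mid]

lemma mid_univ [Fintype V] {G G' : SimpleGraph V} (h : G ≤ G') :
    mid G G' Finset.univ = G' := by
  ext u v
  simp only [mid, SimpleGraph.sup_adj, SimpleGraph.fromRel_adj, Finset.mem_univ, and_true]
  constructor
  · rintro (h1 | ⟨_, h1 | h1⟩)
    · exact h h1
    · exact h1
    · exact h1.symm
  · intro h1
    exact Or.inr ⟨h1.ne, Or.inl h1⟩

lemma mid_insert [Fintype V] (G G' : SimpleGraph V) (a : V) (T : Finset V) :
    mid G G' (insert a T) = mid G G' T ⊔ star a (nb G' a Finset.univ) := by
  ext u v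
  simp only [mid, SimpleGraph.sup_adj, SimpleGraph.fromRel_adj, Finset.mem_insert, star_adj,
    mem_nb, Finset.mem_univ, true_and]
  constructor
  · rintro (h1 | ⟨h0, ⟨h1, rfl | h2⟩ | ⟨h1, rfl | h2⟩⟩)
    · exact Or.inl (Or.inl h1)
    · exact Or.inr ⟨h0, Or.inl ⟨rfl, h1⟩⟩
    · exact Or.inl (Or.inr ⟨h0, Or.inl ⟨h1, h2⟩⟩)
    · exact Or.inr ⟨h0, Or.inr ⟨rfl, h1⟩⟩
    · exact Or.inl (Or.inr ⟨h0, Or.inr ⟨h1, h2⟩⟩)
  · rintro ((h1 | ⟨h0, ⟨h1, h2⟩ | ⟨h1, h2⟩⟩) | ⟨h0, ⟨rfl, h1⟩ | ⟨rfl, h1⟩⟩)
    · exact Or.inl h1
    · exact Or.inr ⟨h0, Or.inl ⟨h1, Or.inr h2⟩⟩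
    · exact Or.inr ⟨h0, Or.inr ⟨h1, Or.inr h2⟩⟩
    · exact Or.inr ⟨h0, Or.inl ⟨h1, Or.inl rfl⟩⟩
    · exact Or.inr ⟨h0, Or.inr ⟨h1, Or.inl rfl⟩⟩

/-- monotonicity of the modulus, open half plane, upper half -/
lemma mono_open [Fintype V] {G G' : SimpleGraph V} (h : G ≤ G') (z : ℂ)
    (hz : (Fintype.card V : ℝ) - 1 < z.re) (him : 0 ≤ z.im) :
    ‖P G' Finset.univ z‖ ≤ ‖P G Finset.univ z‖ := by
  rcases Nat.eq_zero_or_pos (Fintype.card V) with h0 | h0
  · have : (Finset.univ : Finset V) = ∅ := by
      apply Finset.card_eq_zero.1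
      rw [Finset.card_univ, h0]
    rw [this, P_empty, P_empty]
  · obtain ⟨k, hk⟩ : ∃ k, Fintype.card V = k + 1 := ⟨Fintype.card V - 1, by omega⟩
    have hS : (Finset.univ : Finset V).card = k + 1 := by rw [Finset.card_univ, hk]
    have hz' : (k : ℝ) < z.re := by rw [hk] at hz; push_cast at hz; linarith
    have key : ∀ T : Finset V, ‖P (mid G G' T) Finset.univ z‖ ≤ ‖P G Finset.univ z‖ := by
      intro T
      induction T using Finset.induction_on with
      | empty => rw [mid_empty]
      | insert a T _ ih =>
        rw [mid_insert]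
        refine le_trans (star_le _ _ hS z hz' him a (Finset.mem_univ a) _
          (Finset.subset_univ _) ?_) ih
        intro ha
        exact (mem_nb.1 ha).2.ne rfl
    have := key Finset.univ
    rwa [mid_univ h] at this

end

/-- reduction of an inequality on the closed right half plane to the open quarter plane -/
lemma closed_of_open (p : ℤ[X]) (g : ℂ → ℝ) (hg : Continuous g)
    (hgc : ∀ z, g ((starRingEnd ℂ) z) = g z) (b : ℝ)
    (h : ∀ z : ℂ, b < z.re → 0 ≤ z.im → g z ≤ ‖aeval z p‖) :
    ∀ z : ℂ, b ≤ z.re → g z ≤ ‖aeval z p‖ := by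
  have h1 : ∀ z : ℂ, b < z.re → g z ≤ ‖aeval z p‖ := by
    intro z hz
    rcases le_or_gt 0 z.im with hi | hi
    · exact h z hz hi
    · have := h ((starRingEnd ℂ) z) (by rwa [Complex.conj_re]) (by rw [Complex.conj_im]; linarith)
      rwa [hgc, norm_conj] at this
  intro z hz
  have hc : Continuous fun t : ℝ => ‖aeval (z + t) p‖ - g (z + t) := by
    have hp : Continuous fun w : ℂ => ‖aeval w p‖ := (Polynomial.continuous_aeval p).norm
    exact (hp.comp (by fun_prop)).sub (hg.comp (by fun_prop))
  have h2 : Filter.Tendsto (fun t : ℝ => ‖aeval (z + t) p‖ - g (z + t)) (nhdsWithin 0 (Set.Ioi 0))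
      (nhds (‖aeval (z + (0 : ℝ)) p‖ - g (z + (0 : ℝ)))) :=
    (hc.tendsto 0).mono_left nhdsWithin_le_nhds
  have h3 : 0 ≤ ‖aeval (z + (0 : ℝ)) p‖ - g (z + (0 : ℝ)) := by
    refine ge_of_tendsto h2 ?_
    filter_upwards [self_mem_nhdsWithin] with t ht
    have ht' : 0 < t := ht
    have := h1 (z + t) (by simp; linarith)
    linarith
  simpa using h3

/-- **Real parts of chromatic roots: the sharp gap below the complete graph.** -/
theorem result :
    -- the chromatic polynomial exists and is unique
    (∀ (V : Type u) [Fintype V] (G : SimpleGraph V), ∃! p : ℤ[X], IsChromaticPolynomial G p) ∧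
    ∀ n : ℕ, 1 ≤ n → ∀ (V : Type u) [Fintype V], Fintype.card V = n →
      -- the chromatic roots of the complete graph on `n` vertices are `0, 1, ..., n - 1`
      (∀ z : ℂ, IsChromaticRoot (⊤ : SimpleGraph V) z ↔ ∃ i : ℕ, i < n ∧ z = i) ∧
      -- every chromatic root of any other graph on `n` vertices has real part at most `n - 2`
      (∀ G : SimpleGraph V, G ≠ ⊤ → ∀ z : ℂ, IsChromaticRoot G z → z.re ≤ n - 2) ∧
      -- this is sharp for every graph with a clique on `n - 1` vertices
      (2 ≤ n → ∀ (G : SimpleGraph V) (x : V), (∀ a b, a ≠ x → b ≠ x → a ≠ b → G.Adj a b) →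
        IsChromaticRoot G ((n : ℂ) - 2)) ∧
      -- lower bound for the modulus on `Re z ≥ n - 2` for every ordering of the vertices
      (∀ (G : SimpleGraph V) (p : ℤ[X]), IsChromaticPolynomial G p →
        ∀ f : V → ℕ, Function.Injective f → ∀ z : ℂ, (n : ℝ) - 2 ≤ z.re →
          ∏ v, (z.re - backDegree G f v) ≤ ‖aeval z p‖) ∧
      -- on `Re z ≥ n - 1` adding edges never increases the modulus, so that the complete graph
      -- minimises it at every point
      (∀ (G G' : SimpleGraph V) (p p' : ℤ[X]), IsChromaticPolynomial G p →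
        IsChromaticPolynomial G' p' → G ≤ G' → ∀ z : ℂ, (n : ℝ) - 1 ≤ z.re →
          ‖aeval z p'‖ ≤ ‖aeval z p‖) := by
  classical
  have hbd : ∀ (V : Type u) [Fintype V] (G : SimpleGraph V) (f : V → ℕ) (v : V),
      backDegree G f v = bd G f Finset.univ v := by
    intro V _ G f v
    unfold backDegree bd
    rw [Nat.card_eq_fintype_card, Fintype.card_subtype]
  have hprod : ∀ (V : Type u) [Fintype V] (G : SimpleGraph V) (p : ℤ[X]),
      IsChromaticPolynomial G p → ∀ f : V → ℕ, Function.Injective f → ∀ z : ℂ,
      (Fintype.card V : ℝ) - 2 ≤ z.re → ∏ v, (z.re - backDegree G f v) ≤ ‖aeval z p‖ := by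
    intro V _ G p hp f hf
    apply closed_of_open p (fun z => ∏ v, (z.re - backDegree G f v))
    · exact continuous_finset_prod _ fun v _ => Complex.continuous_re.sub continuous_const
    · intro z
      simp only [Complex.conj_re]
    · intro z hz him
      have h := prod_le G f hf _ Finset.univ rfl z (by rwa [Finset.card_univ]) him
      rw [unique_pol hp (isChromaticPolynomial_pol G)]
      refine le_trans (le_of_eq ?_) h
      exact Finset.prod_congr rfl fun v _ => by rw [hbd]
  refine ⟨?_, ?_⟩
  · intro V _ G
    exact ⟨pol G Finset.univ, isChromaticPolynomial_pol G,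
      fun p hp => unique_pol hp (isChromaticPolynomial_pol G)⟩
  · intro n hn V _ hV
    refine ⟨?_, ?_, ?_, ?_, ?_⟩
    · intro z
      have key : aeval z (descPochhammer ℤ n) = ∏ j ∈ Finset.range n, (z - j) := by
        rw [← descPochhammer_eval_eq_prod_range, aeval_def, ← eval_map]
        congr 1
        exact descPochhammer_map (algebraMap ℤ ℂ) n
      constructor
      · rintro ⟨p, hp, hz⟩
        rw [unique_pol hp isChromaticPolynomial_top, hV, key, Finset.prod_eq_zero_iff] at hz
        obtain ⟨i, hi, hz⟩ := hz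
        exact ⟨i, Finset.mem_range.1 hi, sub_eq_zero.1 hz⟩
      · rintro ⟨i, hi, hz⟩
        refine ⟨_, isChromaticPolynomial_top, ?_⟩
        rw [hV, key, Finset.prod_eq_zero_iff]
        exact ⟨i, Finset.mem_range.2 hi, sub_eq_zero.2 hz⟩
    · intro G hG z hz
      obtain ⟨x, y, hxy, hadj⟩ : ∃ x y : V, x ≠ y ∧ ¬ G.Adj x y := by
        by_contra hcon
        push Not at hcon
        apply hG
        ext x y
        exact ⟨fun h => h.ne, fun h => hcon x y h⟩
      obtain ⟨p, hp, hz⟩ := hz
      by_contra hcon
      push Not at hcon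
      -- an ordering in which `x` is the last vertex
      let e : V ≃ Fin n := Fintype.equivFinOfCardEq hV
      let f : V → ℕ := fun v => if v = x then n else e v
      have hf : Function.Injective f := by
        intro a b hab
        simp only [f] at hab
        split_ifs at hab with h1 h2 h2
        · rw [h1, h2]
        · exact absurd hab.symm (Nat.ne_of_lt (e b).2)
        · exact absurd hab (Nat.ne_of_lt (e a).2)
        · exact e.injective (Fin.ext hab)
      have h1 := hprod V G p hp f hf z (by rw [hV]; linarith)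
      rw [hz, norm_zero] at h1
      have h2 : 0 < ∏ v, (z.re - backDegree G f v) := by
        apply Finset.prod_pos
        intro v _
        have h3 : backDegree G f v + 2 ≤ n := by
          rw [hbd]
          unfold bd
          by_cases hv : v = x
          · subst hv
            have hsub : (Finset.univ.filter fun w => f w < f v ∧ G.Adj v w) ⊆
                (Finset.univ.erase v).erase y := by
              intro w hw
              rw [Finset.mem_filter] at hw
              refine Finset.mem_erase.2 ⟨?_, Finset.mem_erase.2 ⟨hw.2.2.ne.symm,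
                Finset.mem_univ _⟩⟩
              rintro rfl
              exact hadj hw.2.2
            have h4 := Finset.card_le_card hsub
            rw [Finset.card_erase_of_mem (Finset.mem_erase.2 ⟨hxy.symm, Finset.mem_univ _⟩),
              Finset.card_erase_of_mem (Finset.mem_univ _), Finset.card_univ, hV] at h4
            have h5 : 2 ≤ n := by
              rw [← hV]
              have : ({v, y} : Finset V).card ≤ Fintype.card V := Finset.card_le_univ _
              rwa [Finset.card_pair hxy] at this
            omega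
          · have hsub : (Finset.univ.filter fun w => f w < f v ∧ G.Adj v w) ⊆
                (Finset.univ.erase x).erase v := by
              intro w hw
              rw [Finset.mem_filter] at hw
              refine Finset.mem_erase.2 ⟨hw.2.2.ne.symm, Finset.mem_erase.2 ⟨?_,
                Finset.mem_univ _⟩⟩
              rintro rfl
              have h6 := hw.2.1
              simp only [f, if_true, if_neg hv] at h6
              exact absurd h6 (not_lt.2 (e v).2.le)
            have h4 := Finset.card_le_card hsub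
            rw [Finset.card_erase_of_mem (Finset.mem_erase.2 ⟨hv, Finset.mem_univ _⟩),
              Finset.card_erase_of_mem (Finset.mem_univ _), Finset.card_univ, hV] at h4
            have h5 : 2 ≤ n := by
              rw [← hV]
              have : ({x, y} : Finset V).card ≤ Fintype.card V := Finset.card_le_univ _
              rwa [Finset.card_pair hxy] at this
            omega
        have h4 : (backDegree G f v : ℝ) + 2 ≤ n := by exact_mod_cast h3
        linarith
      linarith
    · intro hn2 G x hG
      refine ⟨_, isChromaticPolynomial_pol G, ?_⟩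
      have h0 : cnt G Finset.univ (n - 2) = 0 := by
        rw [cnt_univ]
        rw [Nat.card_eq_zero]
        left
        constructor
        intro c
        have hinj : Function.Injective fun v : {v : V // v ≠ x} => c v.1 := by
          intro a b hab
          by_contra hne
          exact c.valid (hG a.1 b.1 a.2 b.2 fun h => hne (Subtype.ext h)) hab
        have h1 := Fintype.card_le_of_injective _ hinj
        rw [Fintype.card_fin, Fintype.card_subtype_compl, Fintype.card_subtype_eq, hV] at h1
        omega
      have h1 : (pol G Finset.univ).eval ((n - 2 : ℕ) : ℤ) = 0 := by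
        rw [pol_eval, h0, Nat.cast_zero]
      have h2 : ((n : ℂ) - 2) = (((n - 2 : ℕ) : ℤ) : ℂ) := by
        push_cast [Nat.cast_sub hn2]
        ring
      rw [h2]
      have h3 : aeval (((n - 2 : ℕ) : ℤ) : ℂ) (pol G Finset.univ) =
          (((pol G Finset.univ).eval ((n - 2 : ℕ) : ℤ) : ℤ) : ℂ) := by
        rw [aeval_def, eval₂_at_intCast]
        rfl
      rw [h3, h1, Int.cast_zero]
    · intro G p hp f hf z hz
      exact hprod V G p hp f hf z (by rw [hV]; exact hz)
    · intro G G' p p' hp hp' hle
      apply closed_of_open p (fun z => ‖aeval z p'‖)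
      · exact (Polynomial.continuous_aeval p').norm
      · intro z
        exact norm_conj p' z
      · intro z hz him
        rw [unique_pol hp (isChromaticPolynomial_pol G),
          unique_pol hp' (isChromaticPolynomial_pol G')]
        exact mono_open hle z (by rw [hV]; exact hz) him

end Pool.Agent.Results.MP_1e1ce6_co.SharpGap
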